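import Pool.Agent.H73.SMD.Stmts

set_option autoImplicit false

open Set Filter Topology MeasureTheory Metric

namespace Pool.SMD

open Pool.PHS Pool.LPC

/-- boundary points inside a preconnected set -/
theorem SEL_bdry {X : Type*} [TopologicalSpace X] {B T : Set X} (hB : IsPreconnected B)
    (hT : IsOpen T) (hne : (B ∩ T).Nonempty) (hne' : ∃ x ∈ B, x ∉ T) :
    ∃ x ∈ B, x ∈ closure T ∧ x ∉ T := by
  by_contra hcon
  have hcon' : ∀ x ∈ B, x ∈ closure T → x ∈ T := by
    intro x hx hxc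
    by_contra h
    exact hcon ⟨x, hx, hxc, h⟩
  obtain ⟨x, hx, hxT⟩ := hne'
  have h1 : B ⊆ T ∪ (closure T)ᶜ := by
    intro y hy
    by_cases h : y ∈ closure T
    · exact Or.inl (hcon' y hy h)
    · exact Or.inr h
  have h2 : (B ∩ (closure T)ᶜ).Nonempty := ⟨x, hx, fun h => hxT (hcon' x hx h)⟩
  obtain ⟨y, hy, hy1, hy2⟩ := hB T (closure T)ᶜ hT isClosed_closure.isOpen_compl h1 hne h2
  exact hy2 (subset_closure hy1)

/-- a punctured disc is preconnected -/
theorem SEL_punct (t : ℂ) (κ : ℝ) (hκ : 0 < κ) : IsPreconnected (ball t κ \ {t}) := by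
  have h1 : ball t κ \ {t} = (fun z : ℂ => t + Complex.exp z) '' {z : ℂ | z.re < Real.log κ} := by
    ext w
    constructor
    · rintro ⟨hw, hwt⟩
      have hw0 : w - t ≠ 0 := sub_ne_zero.2 hwt
      refine ⟨Complex.log (w - t), ?_, ?_⟩
      · change (Complex.log (w - t)).re < Real.log κ
        rw [Complex.log_re]
        refine Real.log_lt_log (norm_pos_iff.2 hw0) ?_
        rw [mem_ball, dist_eq_norm] at hw
        exact hw
      · change t + Complex.exp (Complex.log (w - t)) = w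
        rw [Complex.exp_log hw0]
        ring
    · rintro ⟨z, hz, rfl⟩
      have hz' : z.re < Real.log κ := hz
      refine ⟨?_, ?_⟩
      · rw [mem_ball, dist_eq_norm]
        have : t + Complex.exp z - t = Complex.exp z := by ring
        change ‖t + Complex.exp z - t‖ < κ
        rw [this, Complex.norm_exp]
        calc Real.exp z.re < Real.exp (Real.log κ) := Real.exp_lt_exp.2 hz'
          _ = κ := Real.exp_log hκ
      · intro h
        have h2 : t + Complex.exp z = t := h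
        have h3 : Complex.exp z = 0 := by
          have := congrArg (fun x => x - t) h2
          simpa using this
        exact Complex.exp_ne_zero z h3
  rw [h1]
  refine IsPreconnected.image ?_ _ (by fun_prop)
  exact (convex_halfSpace_re_lt (Real.log κ)).isPreconnected

theorem SEL_thm : SELStmt := by
  intro D C₀ h hD hDc hh hmaps hC hCne hCD hCne' hfix hout
  -- a boundary point of `C₀` in `D`
  obtain ⟨z₀, hz₀D, hz₀c, hz₀⟩ : ∃ x ∈ D, x ∈ closure C₀ ∧ x ∉ C₀ := by
    refine SEL_bdry hDc.isPreconnected hC ?_ ?_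
    · obtain ⟨x, hx⟩ := hCne
      exact ⟨x, hCD hx, hx⟩
    · by_contra hcon
      apply hCne'
      refine Subset.antisymm hCD fun x hx => ?_
      by_contra hx'
      exact hcon ⟨x, hx, hx'⟩
  obtain ⟨τ, hτ, hball⟩ := Metric.isOpen_iff.1 hD z₀ hz₀D
  obtain ⟨z₁, hz₁C, hz₁⟩ := Metric.mem_closure_iff.1 hz₀c (τ / 2) (by positivity)
  set v : Cn 2 := z₁ - z₀ with hv
  have hvn : ‖v‖ < τ / 2 := by
    rw [hv, ← dist_eq_norm, dist_comm]
    exact hz₁
  set A : ℂ → Cn 2 := fun t => z₀ + t • v with hA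
  have hAD : ∀ t ∈ ball (0 : ℂ) 2, A t ∈ D := by
    intro t ht
    apply hball
    rw [mem_ball, dist_eq_norm, hA]
    have h1 : ‖t‖ < 2 := by simpa using ht
    change ‖z₀ + t • v - z₀‖ < τ
    rw [add_sub_cancel_left, norm_smul]
    have h2 : ‖t‖ * ‖v‖ ≤ 2 * ‖v‖ := mul_le_mul_of_nonneg_right h1.le (norm_nonneg _)
    linarith
  have hAc : Continuous A := by
    rw [hA]
    fun_prop
  have hAd : Differentiable ℂ A := by
    rw [hA]
    fun_prop
  set ψ₀ : ℂ → Cn 2 := fun t => h (A t) with hψ₀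
  have hψd : DifferentiableOn ℂ ψ₀ (ball 0 2) := by
    rw [hψ₀]
    exact hh.comp hAd.differentiableOn hAD
  have hψc : ∀ t ∈ ball (0 : ℂ) 2, ψ₀ t ∈ closure D := fun t ht => hmaps (hAD t ht)
  set T : Set ℂ := {t | A t ∈ C₀} with hT
  have hTo : IsOpen T := hC.preimage hAc
  have hTin : ∀ t ∈ T, ψ₀ t ∈ D ∧ h (ψ₀ t) = ψ₀ t := fun t ht => hfix _ ht
  have hTout : ∀ t ∈ ball (0 : ℂ) 2, t ∈ closure T → t ∉ T → ψ₀ t ∉ D := by
    intro t ht htc htT
    refine hout (A t) (hAD t ht) ?_ htT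
    have := closure_mono (image_preimage_subset A C₀)
    exact this (image_closure_subset_closure_image hAc ⟨t, htc, rfl⟩)
  have h0T : (0 : ℂ) ∉ T := by
    intro h0
    have h1 : A 0 ∈ C₀ := h0
    rw [hA] at h1
    simp only [zero_smul, add_zero] at h1
    exact hz₀ h1
  have h1T : (1 : ℂ) ∈ T := by
    change A 1 ∈ C₀
    rw [hA, hv]
    simp only [one_smul, add_sub_cancel]
    exact hz₁C
  obtain ⟨t', ht'B, ht'c, ht'T⟩ : ∃ x ∈ ball (0 : ℂ) 2, x ∈ closure T ∧ x ∉ T :=
    SEL_bdry (convex_ball _ _).isPreconnected hTo ⟨1, by simp, h1T⟩ ⟨0, by simp, h0T⟩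
  have hψt' : ψ₀ t' ∉ D := hTout t' ht'B ht'c ht'T
  -- the derivative of `ψ₀` vanishes only in isolated points
  have hdψ : AnalyticOnNhd ℂ (deriv ψ₀) (ball 0 2) :=
    (hψd.analyticOnNhd isOpen_ball).deriv
  have hev : ∀ᶠ t in 𝓝[≠] t', deriv ψ₀ t ≠ 0 := by
    by_contra hcon
    have hfr : ∃ᶠ t in 𝓝[≠] t', deriv ψ₀ t = 0 := by
      rw [Filter.Frequently]
      exact hcon
    have hz := hdψ.eqOn_zero_of_preconnected_of_frequently_eq_zero
      (convex_ball (0 : ℂ) 2).isPreconnected ht'B hfr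
    have hconst : ψ₀ 1 = ψ₀ t' := by
      refine (convex_ball (0 : ℂ) 2).is_const_of_fderivWithin_eq_zero (𝕜 := ℂ) hψd ?_ (by simp) ht'B
      intro x hx
      rw [fderivWithin_of_isOpen isOpen_ball hx]
      ext1
      have := hz hx
      simpa [fderiv_apply_one_eq_deriv] using this
    exact hψt' (hconst ▸ (hTin 1 h1T).1)
  obtain ⟨κ₁, hκ₁, hκ⟩ := Metric.mem_nhdsWithin_iff.1 hev
  obtain ⟨κ₂, hκ₂, hκB⟩ := Metric.isOpen_iff.1 isOpen_ball t' ht'B
  set κ : ℝ := min κ₁ κ₂ with hκd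
  have hκpos : 0 < κ := lt_min hκ₁ hκ₂
  have hder : ∀ t ∈ ball t' κ, t ≠ t' → deriv ψ₀ t ≠ 0 := by
    intro t ht htt
    exact hκ ⟨ball_subset_ball (min_le_left _ _) ht, htt⟩
  have hsub : ball t' κ ⊆ ball 0 2 := fun t ht => hκB (ball_subset_ball (min_le_right _ _) ht)
  by_cases hcase : ∀ t ∈ ball t' κ, t ≠ t' → t ∈ T
  · -- second case
    have hmem : ∀ u ∈ ball (0 : ℂ) 2, t' + ((κ / 2 : ℝ) : ℂ) * u ∈ ball t' κ := by
      intro u hu
      rw [mem_ball, dist_eq_norm, add_sub_cancel_left, norm_mul, Complex.norm_real,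
        Real.norm_of_nonneg (by positivity)]
      have h1 : ‖u‖ < 2 := by simpa using hu
      have : κ / 2 * ‖u‖ < κ / 2 * 2 := mul_lt_mul_of_pos_left h1 (by positivity)
      linarith
    have hne : ∀ u : ℂ, u ≠ 0 → t' + ((κ / 2 : ℝ) : ℂ) * u ≠ t' := by
      intro u hu hh'
      have h1 : ((κ / 2 : ℝ) : ℂ) * u = 0 := by
        have := congrArg (fun x => x - t') hh'
        simpa using this
      rcases mul_eq_zero.1 h1 with h2 | h2
      · have h3 : (κ / 2 : ℝ) = 0 := by exact_mod_cast h2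
        linarith
      · exact hu h2
    refine ⟨fun u => ψ₀ (t' + ((κ / 2 : ℝ) : ℂ) * u), ?_, ?_, ?_, ?_, ?_⟩
    · refine hψd.comp (g := ψ₀) (f := fun u : ℂ => t' + ((κ / 2 : ℝ) : ℂ) * u) (by fun_prop) ?_
      intro u hu
      exact hsub (hmem u hu)
    · intro u hu
      exact hψc _ (hsub (hmem u hu))
    · change ψ₀ (t' + ((κ / 2 : ℝ) : ℂ) * 0) ∉ D
      rw [mul_zero, add_zero]
      exact hψt'
    · intro u hu hur
      have hu0 : u ≠ 0 := by
        rintro rfl
        simp at hur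
      exact hTin _ (hcase _ (hmem u hu) (hne u hu0))
    · right
      intro u hu hu0
      exact (hTin _ (hcase _ (hmem u hu) (hne u hu0))).1
  · -- first case
    obtain ⟨t₆, ht₆P, ht₆c, ht₆T⟩ : ∃ x ∈ ball t' κ \ {t'}, x ∈ closure T ∧ x ∉ T := by
      refine SEL_bdry (SEL_punct t' κ hκpos) hTo ?_ ?_
      · obtain ⟨t, htT, htd⟩ := Metric.mem_closure_iff.1 ht'c κ hκpos
        refine ⟨t, ⟨?_, ?_⟩, htT⟩
        · rw [mem_ball, dist_comm]
          exact htd
        · intro hh'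
          have : t = t' := hh'
          exact ht'T (this ▸ htT)
      · by_contra hcon
        apply hcase
        intro t ht htt
        by_contra htT
        exact hcon ⟨t, ⟨ht, htt⟩, htT⟩
    have hPo : IsOpen (ball t' κ \ {t'}) := isOpen_ball.sdiff isClosed_singleton
    obtain ⟨ρ, hρ, hρP⟩ := Metric.isOpen_iff.1 hPo t₆ ht₆P
    obtain ⟨t₄, ht₄T, ht₄⟩ := Metric.mem_closure_iff.1 ht₆c (ρ / 3) (by positivity)
    obtain ⟨t₃, ht₃T, ht₃⟩ := hTo.isClosed_compl.exists_infDist_eq_dist ⟨t₆, ht₆T⟩ t₄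
    set R : ℝ := infDist t₄ Tᶜ with hR
    have hRle : R < ρ / 3 := by
      refine lt_of_le_of_lt (infDist_le_dist_of_mem (x := t₄) (s := Tᶜ) (y := t₆) ht₆T) ?_
      rw [dist_comm]
      exact ht₄
    have hRpos : 0 < R := by
      rw [ht₃]
      refine dist_pos.2 ?_
      intro hh'
      exact ht₃T (hh' ▸ ht₄T)
    have hballT : ∀ t ∈ ball t₄ R, t ∈ T := by
      intro t ht
      by_contra htT
      have h1 : R ≤ dist t₄ t := infDist_le_dist_of_mem (show t ∈ Tᶜ from htT)
      rw [mem_ball, dist_comm] at ht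
      linarith
    have ht₃₆ : dist t₃ t₆ < 2 * ρ / 3 := by
      have h1 := dist_triangle t₃ t₄ t₆
      have h2 : dist t₃ t₄ = R := by rw [dist_comm, ← ht₃]
      have h3 : dist t₄ t₆ < ρ / 3 := by rw [dist_comm]; exact ht₄
      linarith
    have ht₃P : t₃ ∈ ball t' κ \ {t'} := by
      apply hρP
      rw [mem_ball]
      linarith
    have ht₃B : t₃ ∈ ball (0 : ℂ) 2 := hsub ht₃P.1
    set s : ℂ := (t₄ - t₃) / 2 with hs
    have hw : ‖t₄ - t₃‖ = R := by rw [← dist_eq_norm, ← ht₃]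
    have hw0 : t₄ - t₃ ≠ 0 := by
      intro h0
      rw [h0, norm_zero] at hw
      linarith
    have hsn : ‖s‖ = R / 2 := by
      rw [hs, norm_div, hw]
      norm_num
    have hs0 : s ≠ 0 := by
      rw [hs]
      exact div_ne_zero hw0 two_ne_zero
    have hmem : ∀ u ∈ ball (0 : ℂ) 2, t₃ + s * u ∈ ball (0 : ℂ) 2 := by
      intro u hu
      apply hsub
      refine (hρP ?_).1
      rw [mem_ball]
      have h1 : ‖u‖ < 2 := by simpa using hu
      have h2 : dist (t₃ + s * u) t₃ ≤ R := by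
        rw [dist_eq_norm, add_sub_cancel_left, norm_mul, hsn]
        have : R / 2 * ‖u‖ ≤ R / 2 * 2 := mul_le_mul_of_nonneg_left h1.le (by positivity)
        linarith
      have h3 := dist_triangle (t₃ + s * u) t₃ t₆
      linarith
    have hsec : ∀ u ∈ ball (0 : ℂ) 2, ‖u‖ < 2 * u.re → t₃ + s * u ∈ T := by
      intro u hu hur
      apply hballT
      have h1 : ‖u‖ < 2 := by simpa using hu
      have h2 : ‖u - 2‖ < 2 := by
        have h3 : ‖u - 2‖ ^ 2 < 2 ^ 2 := by
          have h4 : ‖u - 2‖ ^ 2 = (u.re - 2) ^ 2 + u.im ^ 2 := by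
            rw [← Complex.normSq_eq_norm_sq, Complex.normSq_apply]
            simp
            ring
          have h5 : ‖u‖ ^ 2 = u.re ^ 2 + u.im ^ 2 := by
            rw [← Complex.normSq_eq_norm_sq, Complex.normSq_apply]
            ring
          have h6 : ‖u‖ ^ 2 < 4 * u.re := by
            have h7 : 0 ≤ ‖u‖ := norm_nonneg u
            nlinarith
          nlinarith
        exact lt_of_pow_lt_pow_left₀ 2 (by norm_num) h3
      rw [mem_ball, dist_eq_norm]
      have h3 : t₃ + s * u - t₄ = s * (u - 2) := by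
        rw [hs]
        ring
      rw [h3, norm_mul, hsn]
      have : R / 2 * ‖u - 2‖ < R / 2 * 2 := mul_lt_mul_of_pos_left h2 (by positivity)
      linarith
    have ht₃c : t₃ ∈ closure T := by
      have h1 : t₃ ∈ closure (ball t₄ R) := by
        rw [closure_ball t₄ hRpos.ne', mem_closedBall, dist_comm, ← ht₃]
      exact closure_mono hballT h1
    refine ⟨fun u => ψ₀ (t₃ + s * u), ?_, ?_, ?_, ?_, ?_⟩
    · refine hψd.comp (g := ψ₀) (f := fun u : ℂ => t₃ + s * u) (by fun_prop) ?_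
      intro u hu
      exact hmem u hu
    · intro u hu
      exact hψc _ (hmem u hu)
    · change ψ₀ (t₃ + s * 0) ∉ D
      rw [mul_zero, add_zero]
      exact hTout t₃ ht₃B ht₃c ht₃T
    · intro u hu hur
      exact hTin _ (hsec u hu hur)
    · left
      have h1 : HasDerivAt (fun u : ℂ => t₃ + s * u) s 0 := by
        have := ((hasDerivAt_id (0 : ℂ)).const_mul s).const_add t₃
        simpa using this
      have h2 : HasDerivAt ψ₀ (deriv ψ₀ t₃) (t₃ + s * 0) := by
        rw [mul_zero, add_zero]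
        exact (hψd.differentiableAt (isOpen_ball.mem_nhds ht₃B)).hasDerivAt
      have h3 : HasDerivAt (ψ₀ ∘ fun u : ℂ => t₃ + s * u) (s • deriv ψ₀ t₃) 0 := h2.scomp (0 : ℂ) h1
      change deriv (ψ₀ ∘ fun u : ℂ => t₃ + s * u) 0 ≠ 0
      rw [h3.deriv]
      exact smul_ne_zero hs0 (hder t₃ ht₃P.1 ht₃P.2)

end Pool.SMD
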